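import Pool.Agent.MP_542436_nt.Sp.Spec

set_option autoImplicit false

namespace Pool.Agent.MP_542436_nt.H73

open Polynomial NumberField Finset Pool.Agent.MP_542436_nt.Sp

theorem dS_pow (hB : BaseStmt) {g : ℤ[X][X]} (hg : g ≠ 0) (j : ℕ) : dS (g ^ j) = j * dS g := by
  induction j with
  | zero =>
    rw [pow_zero, zero_mul, dS, ← Nat.le_zero]
    refine Finset.sup_le fun k _ => ?_
    rw [coeff_one]
    split_ifs <;> simp
  | succ j ih => rw [pow_succ, hB.dS_mul _ _ _ (pow_ne_zero _ hg) hg, ih, add_mul, one_mul]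

theorem cf_sub (f g : ℤ[X][X]) (i k : ℕ) : cf (f - g) i k = cf f i k - cf g i k := by
  simp [cf]

theorem dg_ds (hB : BaseStmt) {g : ℤ[X][X]} {m n : ℕ} (h : Dg (m + 1) n g) :
    Dg (m - 1 + 1) n (ds g) := by
  intro i k hik
  rw [cf, hB.coeff_ds, coeff_derivative] at hik
  have := h (i + 1) k (left_ne_zero_of_mul hik)
  omega

theorem rpow_le_pow {X P p e : ℝ} {k : ℕ} (hX : 1 ≤ X) (hP : 0 ≤ P) (hp : X ^ P ≤ p) (h : e ≤ k) :
    X ^ (P * e) ≤ p ^ k := by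
  refine (Real.rpow_le_rpow_of_exponent_le hX (mul_le_mul_of_nonneg_left h hP)).trans ?_
  rw [Real.rpow_mul_natCast (by positivity)]
  gcongr

theorem val_le (hB : BaseStmt) (hP : PDivStmt) (hV : ValStmt) (m n : ℕ) (c0 : ℝ) (hc0 : 0 < c0) :
    ∃ C : ℝ, 1 ≤ C ∧ ∀ (K : Type) [Field K] [NumberField K] (d : ℕ) (θ ω : K), St d θ →
      ∀ (X P x1 x2 pen w : ℝ) (r m2 n2 r2 j : ℕ) (g F h : ℤ[X][X]) (Q : Pt K), 1 ≤ X → 0 ≤ P →
        1 ≤ m2 → 1 ≤ r2 → Crv θ ω g m2 n2 r2 → PenOk g m2 n2 r2 c0 X P x1 x2 pen →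
        Inc θ ω X (X ^ x1) (X ^ x2) (X ^ P) Q → Q.val m2 n2 g = 0 →
        Q.val (m2 - 1) n2 (ds g) ≠ 0 → Dg (m + 1) (n + 1) F →
        Nb m (X ^ x1) (X ^ x2) (2 * X ^ w) F → h ≠ 0 → F = g ^ j * h →
        |((Q.val (m - j * m2) (n - j * n2) h : ℤ) : ℝ)| ≤
          C * X ^ (w + n - r * P + j * pen) * (Q.p : ℝ) ^ (r - j * r2) := by
  obtain ⟨Cg, hCg, hgel⟩ := hV.gel (m + n)
  have hc1 : (1 : ℝ) ≤ 1 + c0⁻¹ := le_add_of_nonneg_right (by positivity)
  have e0 : (1 : ℝ) ≤ (m + 1) * (n + 1) :=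
    one_le_mul_of_one_le_of_one_le (by simp) (by simp)
  have e1 : (1 : ℝ) ≤ 2 ^ m := one_le_pow₀ (by norm_num)
  have e2 : (0 : ℝ) ≤ Cg * (1 + c0⁻¹) ^ m := by positivity
  refine ⟨(m + 1) * (n + 1) * (2 * (2 ^ m + Cg * (1 + c0⁻¹) ^ m)),
    one_le_mul_of_one_le_of_one_le e0 (by linarith), ?_⟩
  intro K _ _ d θ ω hSt X P x1 x2 pen w r m2 n2 r2 j g F h Q hX hP0 hm2 hr2 hg hpen hQ h0 h1 hF hN
    hh e
  have X0 : 0 < X := zero_lt_one.trans_le hX
  have g0 : g ≠ 0 := hg.irr.ne_zero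
  obtain ⟨a1, a2⟩ := (hB.dg_iff _ _ _ _).1 hF
  rw [e, hB.dS_mul _ _ _ (pow_ne_zero _ g0) hh, dS_pow hB g0, hg.hm] at a1
  rw [e, natDegree_mul (pow_ne_zero _ g0) hh, natDegree_pow, hg.hn] at a2
  have dg : Dg (m2 + 1) (n2 + 1) g := (hB.dg_iff _ _ _ _).2 ⟨hg.hm.le, hg.hn.le⟩
  have dh : Dg (m - j * m2 + 1) (n - j * n2 + 1) h := (hB.dg_iff _ _ _ _).2 ⟨by omega, by omega⟩
  have p0 : (0 : ℝ) < Q.p := lt_of_lt_of_le (by positivity) hQ.p0
  have b0 : (r : ℝ) - j * r2 ≤ (r - j * r2 : ℕ) := by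
    have : (r : ℝ) ≤ (r - j * r2 : ℕ) + (j * r2 : ℕ) := by exact_mod_cast le_tsub_add
    push_cast at this
    linarith
  rw [e] at hN
  rcases hpen with hpen | ⟨i, k, hi, hpen⟩
  · have c1 := hV.der m n j m2 n2 g h _ _ _ X _ _ _ _ hm2 (by omega) (by omega) dg dh hN
      (by positivity) hQ.hx hQ.hy hQ.sq.ha hQ.sq.hb hQ.y0 hQ.b0 h0
    have c2 := hP K d θ ω hSt _ _ _ _ Q hQ (m2 - 1) n2 (r2 - 1) (ds g) (dg_ds hB dg)
      (hB.up_ds K g ▸ hB.ord_ds _ _ _ _ _ hg.ord)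
    have c3 : (Q.p : ℝ) ^ (r2 - 1) ≤ |((Q.val (m2 - 1) n2 (ds g) : ℤ) : ℝ)| := by
      exact_mod_cast Int.le_of_dvd (abs_pos.2 h1) ((dvd_abs _ _).2 c2)
    have c4 : X ^ (P * (r - j : ℝ)) ≤ (Q.p : ℝ) ^ (r - j * r2 + (r2 - 1) * j) :=
      rpow_le_pow hX hP0 hQ.p0 (by
        push_cast [hr2]
        linarith)
    refine le_of_mul_le_mul_right ?_
      (by positivity : (0 : ℝ) < ((Q.p : ℝ) ^ (r2 - 1)) ^ j * (X ^ x1) ^ j)
    calc _ ≤ |((Q.val (m - j * m2) (n - j * n2) h : ℤ) : ℝ)| *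
            |((Q.val (m2 - 1) n2 (ds g) : ℤ) : ℝ)| ^ j * (X ^ x1) ^ j := by
          rw [mul_assoc]
          gcongr
      _ ≤ _ := c1
      _ = (m + 1) * (n + 1) * (2 * 2 ^ m) * X ^ (w + n) := by
          rw [Real.rpow_add X0, Real.rpow_natCast]
          ring
      _ ≤ (m + 1) * (n + 1) * (2 * (2 ^ m + Cg * (1 + c0⁻¹) ^ m)) *
            (X ^ (w + n - r * P + j * pen) * X ^ (P * (r - j : ℝ)) * (X ^ x1) ^ j) := by
          rw [← Real.rpow_mul_natCast X0.le, ← Real.rpow_add X0, ← Real.rpow_add X0]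
          refine mul_le_mul (by gcongr; linarith) (Real.rpow_le_rpow_of_exponent_le hX ?_)
            (by positivity) (by positivity)
          nlinarith [mul_le_mul_of_nonneg_left hpen (Nat.cast_nonneg (α := ℝ) j)]
      _ ≤ (m + 1) * (n + 1) * (2 * (2 ^ m + Cg * (1 + c0⁻¹) ^ m)) *
            (X ^ (w + n - r * P + j * pen) * (Q.p : ℝ) ^ (r - j * r2 + (r2 - 1) * j) *
              (X ^ x1) ^ j) := by gcongr
      _ = _ := by
          rw [pow_add, pow_mul]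
          ring
  · have hj : j ≤ m := le_trans (Nat.le_mul_of_pos_right _ hm2) (by omega)
    have c0' : 0 < c0 * X ^ (r2 * P - n2 - pen) := by positivity
    have c1 : Nb (m - j * m2) (X ^ x1) (X ^ x2)
        (Cg * (2 * X ^ w) / (c0 * X ^ (r2 * P - n2 - pen)) ^ j) h := by
      intro i' k' hi'
      rw [le_div_iff₀ (by positivity), mul_comm]
      refine le_trans ?_ (hgel j m2 n2 (m - j * m2) (n - j * n2) g h (X ^ x1) (X ^ x2) _ (by omega)
        (by omega) (by omega) dg dh (by positivity) (by positivity)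
        (by rwa [Nat.add_sub_cancel' (by omega)]) i k i' k' hi hi')
      gcongr
    have c2 : X ^ (P * (r - j * r2 : ℝ)) ≤ (Q.p : ℝ) ^ (r - j * r2) := rpow_le_pow hX hP0 hQ.p0 b0
    have c3 : (c0 ^ j)⁻¹ ≤ (1 + c0⁻¹) ^ m := by
      rw [← inv_pow]
      exact (pow_le_pow_left₀ (by positivity) (by linarith) j).trans (pow_le_pow_right₀ hc1 hj)
    calc _ ≤ _ := hV.val _ (n - j * n2) h _ _ _ X _ _ _ _ c1 hQ.hx hQ.hy hQ.sq.ha hQ.sq.hb
      _ = (((m - j * m2 : ℕ) : ℝ) + 1) * (((n - j * n2 : ℕ) : ℝ) + 1) * (2 * (Cg * (c0 ^ j)⁻¹)) *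
            (X ^ (w + n - r * P + j * pen) * X ^ (P * (r - j * r2 : ℝ))) := by
          rw [mul_pow, ← Real.rpow_mul_natCast X0.le, ← Real.rpow_add X0,
            ← Real.rpow_natCast X (n - j * n2), Nat.cast_sub (by omega : j * n2 ≤ n),
            show w + n - r * P + j * pen + P * (r - j * r2 : ℝ) =
              w + ((n : ℝ) - (j * n2 : ℕ)) - (r2 * P - n2 - pen) * j by push_cast; ring,
            Real.rpow_sub X0 (w + _), Real.rpow_add X0 w]
          field_simp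
      _ ≤ (m + 1) * (n + 1) * (2 * (2 ^ m + Cg * (1 + c0⁻¹) ^ m)) *
            (X ^ (w + n - r * P + j * pen) * (Q.p : ℝ) ^ (r - j * r2)) := by
          have := mul_le_mul_of_nonneg_left c3 (zero_le_one.trans hCg)
          gcongr
          · omega
          · omega
          · linarith
      _ = _ := by ring

theorem sum_nu (J N : ℕ) (μ : ℕ → ℝ) (hμ : ∀ j, 0 ≤ μ j) (cap : ℕ → ℕ) (Nt : Finset (ℕ × ℕ))
    (h1 : Nt ⊆ range (J + 1) ×ˢ range N) (h2 : ∀ j, (Nt.filter fun z => j ≤ z.1).card ≤ cap j) :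
    ∑ z ∈ Nt, ∑ k ∈ range (z.1 + 1), μ k ≤ ∑ j ∈ range (J + 1), μ j * cap j := by
  have : ∀ z ∈ Nt, ∑ k ∈ range (z.1 + 1), μ k = ∑ k ∈ range (J + 1), if k ≤ z.1 then μ k else 0 := by
    intro z hz
    have := mem_range.1 (mem_product.1 (h1 hz)).1
    rw [← sum_filter]
    congr 1
    ext k
    simp only [mem_range, mem_filter]
    omega
  rw [sum_congr rfl this, sum_comm]
  refine sum_le_sum fun k _ => ?_
  rw [← sum_filter, sum_const, nsmul_eq_mul, mul_comm]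
  exact mul_le_mul_of_nonneg_left (by exact_mod_cast h2 k) (hμ k)

theorem cls (hB : BaseStmt) (hP : PDivStmt) (hS : SiegelStmt) (hV : ValStmt) (hF : FiltStmt) :
    ClsStmt := by
  intro K _ _ d θ hSt m n r m' n' r' M2 η c0 hr hm' hn' hη hc0
  obtain ⟨c, hc, hsie⟩ := hS K d θ hSt m n r hr
  obtain ⟨C, hC, hval⟩ := val_le hB hP hV m n c0 hc0
  set N := M2 * (m * M2 + M2 * n) + 1 with hN
  set J := min (m / m') (n / n') with hJ
  obtain ⟨X0, hX0⟩ := Filter.eventually_atTop.1 (((tendsto_rpow_atTop hη).eventually_gt_atTop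
    ((3 * C) ^ ((J + 1) * N) / c)).and (Filter.eventually_gt_atTop 1))
  refine ⟨N, X0, ?_⟩
  rintro X hX P x1 x2 t l pen hP0 hx2 hx1 ⟨w, μ, hμ, hw, hgood⟩ ω ζ0 ζ1 hω hrep g m2 n2 r2 hg a1 a2
    a3 a4 a5 a6 hpen q hq hql hqP Q hQ
  obtain ⟨b1, b2⟩ := hX0 X hX
  have X0 : 0 < X := zero_lt_one.trans b2
  obtain ⟨S, hS1, hS2⟩ := hsie X b2 x1 x2 t w hx2 hx1 hw ω ζ0 ζ1 hrep
  obtain ⟨Nt, c1, c2, c3⟩ := hF K d θ ω hSt hω m n r m' n' r' m2 n2 r2 q N g X _ _ _ Q hm' a1 hn' a3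
    a6 hg hq hqP (Nat.lt_succ_of_le (by gcongr)) hQ S (fun j => C * X ^ (w + n - r * P + j * pen))
    (fun j => by positivity) (fun f hf => ⟨(hS2 f hf).1, (hS2 f hf).2.1⟩) (by
      intro f hf f' hf' j h hh e i hi
      refine hval K d θ ω hSt X P x1 x2 pen w r m2 n2 r2 j g _ h _ b2.le hP0 (by omega) a5 hg hpen
        (hQ.inc i hi) (hQ.on i hi) (fun e0 => hQ.unit i hi (by rw [e0, mul_zero]; exact dvd_zero _))
        (fun i k hik => ?_) (fun i k hi => ?_) hh e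
      · by_cases e1 : cf f i k = 0
        · exact (hS2 f' hf').1 i k fun e2 => hik (by rw [cf_sub, e1, e2, sub_zero])
        · exact (hS2 f hf).1 i k e1
      · have d1 := (hS2 f hf).2.2 i k hi
        have d2 := (hS2 f' hf').2.2 i k hi
        rw [cf_sub, Int.cast_sub]
        refine le_trans (mul_le_mul_of_nonneg_right (mul_le_mul_of_nonneg_right (abs_sub _ _)
          (by positivity)) (by positivity)) ?_
        linarith)
  set E : ℕ × ℕ → ℝ := fun z => max 0 (w + n - r * P + z.1 * pen - ∑ k ∈ range (z.1 + 1), μ k -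
    z.2 * l) with hE
  have c4 : ∀ z ∈ Nt, 2 * (C * X ^ (w + n - r * P + z.1 * pen)) / (q : ℝ) ^ z.2 + 1 ≤
      3 * C * X ^ (E z + ∑ k ∈ range (z.1 + 1), μ k) := by
    intro z _
    have d0 : 0 ≤ ∑ k ∈ range (z.1 + 1), μ k := sum_nonneg fun k _ => hμ k
    have d1 : 0 ≤ E z := le_max_left _ _
    have d2 : _ ≤ E z := le_max_right _ _
    have d3 : 1 ≤ X ^ (E z + ∑ k ∈ range (z.1 + 1), μ k) := Real.one_le_rpow b2.le (by linarith)
    have d4 : X ^ (w + n - r * P + z.1 * pen) ≤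
        X ^ (E z + ∑ k ∈ range (z.1 + 1), μ k) * (q : ℝ) ^ z.2 := by
      refine le_trans ?_ (mul_le_mul_of_nonneg_left (pow_le_pow_left₀ (by positivity) hql z.2)
        (by positivity))
      rw [← Real.rpow_mul_natCast X0.le, ← Real.rpow_add X0]
      exact Real.rpow_le_rpow_of_exponent_le b2.le (by linarith)
    have q0 : (0 : ℝ) < (q : ℝ) ^ z.2 := pow_pos (by exact_mod_cast hq.pos) _
    have d5 : 2 * (C * X ^ (w + n - r * P + z.1 * pen)) / (q : ℝ) ^ z.2 ≤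
        2 * (C * X ^ (E z + ∑ k ∈ range (z.1 + 1), μ k)) := by
      rw [div_le_iff₀ q0, mul_assoc 2, mul_assoc C]
      gcongr
    nlinarith
  have c5 := c3.trans (prod_le_prod (fun z _ => by positivity) c4)
  rw [prod_mul_distrib, prod_const, ← Real.rpow_sum_of_pos X0, sum_add_distrib] at c5
  have c6 : ∑ z ∈ Nt, E z ≤ ∑ j ∈ range (J + 1), ∑ i ∈ range N, E (j, i) := by
    rw [← sum_product']
    exact sum_le_sum_of_subset_of_nonneg c1 fun z _ _ => le_max_left _ _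
  have c7 := sum_nu J N μ hμ _ Nt c1 c2
  have c8 := hgood N
  have c9 : Nt.card ≤ (J + 1) * N := by simpa using card_le_card c1
  have c10 : c * X ^ lhs d m n r x1 x2 t w ≤
      (3 * C) ^ ((J + 1) * N) * X ^ (lhs d m n r x1 x2 t w - η) :=
    hS1.trans (c5.trans (mul_le_mul (pow_le_pow_right₀ (by linarith) c9)
      (Real.rpow_le_rpow_of_exponent_le b2.le (by linarith)) (by positivity) (by positivity)))
  rw [Real.rpow_sub X0, ← mul_div_assoc, le_div_iff₀ (by positivity)] at c10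
  rw [div_lt_iff₀ hc] at b1
  have := mul_lt_mul_of_pos_right b1 (Real.rpow_pos_of_pos X0 (lhs d m n r x1 x2 t w))
  linarith

end Pool.Agent.MP_542436_nt.H73
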